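import Pool.Agent.H81.LE.Stm

/-!
# Module `S_hall` of the project LE (seat helper78)
-/

set_option autoImplicit false

namespace H78.LE

open Finset Pool.Agent.H81.LE

theorem t_hall : S_hall := by
  intro V _ X Y O hXY hO
  set t : X → Finset ℕ := fun v => (O.filter (fun x => x.1 = (v : V))).image Prod.snd with ht
  have hmem : ∀ (v : X) (c : ℕ), c ∈ t v ↔ ((v : V), c) ∈ O := by
    intro v c
    simp only [ht, Finset.mem_image, Finset.mem_filter]
    constructor
    · rintro ⟨x, ⟨hx, h1⟩, h2⟩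
      have : x = ((v : V), c) := Prod.ext h1 h2
      rwa [← this]
    · intro h
      exact ⟨_, ⟨h, rfl⟩, rfl⟩
  by_cases h : ∀ s : Finset X, s.card ≤ (s.biUnion t).card
  · left
    obtain ⟨f, hf, hft⟩ := (Finset.all_card_le_biUnion_card_iff_exists_injective t).1 h
    refine ⟨(univ : Finset X).image (fun v : X => ((v : V), f v)), ?_, ?_, ?_, ?_, ?_⟩
    · intro x hx
      obtain ⟨v, -, rfl⟩ := Finset.mem_image.1 hx
      exact (hmem v _).1 (hft v)
    · intro x hx
      obtain ⟨v, -, rfl⟩ := Finset.mem_image.1 hx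
      exact hO _ ((hmem v _).1 (hft v))
    · intro v hv
      exact ⟨f ⟨v, hv⟩, Finset.mem_image.2 ⟨⟨v, hv⟩, Finset.mem_univ _, rfl⟩⟩
    · intro x hx y hy hxy
      obtain ⟨v, -, rfl⟩ := Finset.mem_image.1 hx
      obtain ⟨w, -, rfl⟩ := Finset.mem_image.1 hy
      have : v = w := Subtype.ext hxy
      rw [this]
    · intro x hx y hy hxy
      obtain ⟨v, -, rfl⟩ := Finset.mem_image.1 hx
      obtain ⟨w, -, rfl⟩ := Finset.mem_image.1 hy
      have : v = w := hf hxy
      rw [this]
  · right
    push Not at h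
    obtain ⟨s, hs⟩ := h
    have hsub : s.biUnion t ⊆ Y := by
      intro c hc
      obtain ⟨v, -, hv⟩ := Finset.mem_biUnion.1 hc
      exact (hO _ ((hmem v c).1 hv)).2
    have hA : s.map (Function.Embedding.subtype _) ⊆ X := by
      intro v hv
      obtain ⟨w, -, rfl⟩ := Finset.mem_map.1 hv
      exact w.2
    have hc := Finset.card_le_card hA
    rw [Finset.card_map] at hc
    obtain ⟨U, hU1, hU2, hU3⟩ := Finset.exists_subsuperset_card_eq hsub
      (n := s.card - 1) (by omega) (by omega)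
    refine ⟨_, hA, U, hU2, by rw [Finset.card_map]; omega, ?_⟩
    intro x hx hxA
    obtain ⟨v, hv, h1⟩ := Finset.mem_map.1 hxA
    refine hU1 (Finset.mem_biUnion.2 ⟨v, hv, (hmem v _).2 ?_⟩)
    have : ((v : V), x.2) = x := Prod.ext h1 rfl
    rwa [this]

end H78.LE
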