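import Pool.Agent.H81.LE.Stm

/-!
# Module `S_pot` of the project LE (seat helper78)
-/

set_option autoImplicit false

namespace H78.LE

open Finset Pool.Agent.H81.LE

theorem pow_inter {E : Type} [DecidableEq E] (y : ℝ) (F M : Finset E) :
    y ^ (F ∩ M).card = ∑ J ∈ F.powerset, if J ⊆ M then (y - 1) ^ J.card else 0 := by
  have h := Finset.sum_pow_mul_eq_add_pow (y - 1) 1 (F ∩ M)
  simp only [one_pow, mul_one, sub_add_cancel] at h
  rw [← h, ← Finset.sum_filter]
  refine Finset.sum_congr ?_ fun _ _ => rfl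
  ext J
  simp only [Finset.mem_powerset, Finset.mem_filter, Finset.subset_inter_iff]

theorem moment {E : Type} [DecidableEq E] {θ y : ℝ} (hy : 1 ≤ y) (t : Finset (Finset E))
    (μ : Finset E → ℝ) (hJ : ∀ J : Finset E, ∑ M ∈ t.filter (fun M => J ⊆ M), μ M ≤ θ ^ J.card)
    (F : Finset E) : ∑ M ∈ t, μ M * y ^ (F ∩ M).card ≤ (1 + (y - 1) * θ) ^ F.card := by
  have h1 : ∑ M ∈ t, μ M * y ^ (F ∩ M).card =
      ∑ J ∈ F.powerset, (y - 1) ^ J.card * ∑ M ∈ t.filter (fun M => J ⊆ M), μ M := by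
    simp_rw [pow_inter, Finset.mul_sum]
    rw [Finset.sum_comm]
    refine Finset.sum_congr rfl fun J _ => ?_
    rw [Finset.sum_filter]
    refine Finset.sum_congr rfl fun M _ => ?_
    split_ifs
    · ring
    · ring
  rw [h1]
  have h2 := Finset.sum_pow_mul_eq_add_pow ((y - 1) * θ) 1 F
  simp only [one_pow, mul_one] at h2
  rw [add_comm (1 : ℝ), ← h2]
  refine Finset.sum_le_sum fun J _ => ?_
  rw [mul_pow]
  exact mul_le_mul_of_nonneg_left (hJ J) (pow_nonneg (by linarith) _)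

theorem t_pot : S_pot := by
  intro E _ θ y P I s a F _ hy ⟨t, μ, hP, h1, hJ⟩ ha
  set X : Finset E → ℝ := fun M => ∑ i ∈ s, a i * y ^ (F i ∩ M).card with hX
  set R : ℝ := ∑ i ∈ s, a i * (1 + (y - 1) * θ) ^ (F i).card with hR
  have hav : ∑ M ∈ t, μ M * X M ≤ R := by
    have : ∑ M ∈ t, μ M * X M = ∑ i ∈ s, a i * ∑ M ∈ t, μ M * y ^ (F i ∩ M).card := by
      simp_rw [hX, Finset.mul_sum]
      rw [Finset.sum_comm]
      refine Finset.sum_congr rfl fun i _ => Finset.sum_congr rfl fun M _ => by ring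
    rw [this]
    exact Finset.sum_le_sum fun i hi => mul_le_mul_of_nonneg_left (moment hy t μ hJ (F i)) (ha i hi)
  by_contra hcon
  push Not at hcon
  have h2 : ∑ M ∈ t, μ M * (X M - R) ≤ 0 := by
    have : ∑ M ∈ t, μ M * (X M - R) = ∑ M ∈ t, μ M * X M - (∑ M ∈ t, μ M) * R := by
      rw [Finset.sum_mul, ← Finset.sum_sub_distrib]
      exact Finset.sum_congr rfl fun M _ => by ring
    rw [this, h1]
    linarith
  have h3 : ∀ M ∈ t, 0 ≤ μ M * (X M - R) := fun M hM =>
    mul_nonneg (hP M hM).2 (by have := hcon M (hP M hM).1; linarith)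
  have h4 : ∀ M ∈ t, μ M = 0 := by
    intro M hM
    have h5 := (Finset.sum_eq_zero_iff_of_nonneg h3).1 (le_antisymm h2 (Finset.sum_nonneg h3)) M hM
    rcases mul_eq_zero.1 h5 with h6 | h6
    · exact h6
    · have := hcon M (hP M hM).1
      linarith
  rw [Finset.sum_eq_zero h4] at h1
  exact zero_ne_one h1

end H78.LE
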